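import Pool.Agent.H20R3.Yor.Final

/-!
# `supcof = cof(N)` and `minadd = add(N)` for the Yorioka ideals
-/

namespace Pool.Agent.Results.MP_cd6b71_lc.MinaddSupcof

open Pool.Agent.H20R3.Yor

/-- The supremum of the cofinalities of the Yorioka ideals `I_f` (`f : ω → ω` strictly increasing)
is the cofinality of the null ideal, and the minimum of their additivities is the additivity of the
null ideal. -/
theorem result : supcof = cofNum nullIdeal ∧ minadd = addNum nullIdeal := main

end Pool.Agent.Results.MP_cd6b71_lc.MinaddSupcof
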